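import Mathlib
import Pool.Agent.Lib.MP_544a75_co.Maximal

set_option autoImplicit false

open Pool.Agent.Lib.MP_544a75_co

namespace Pool.Agent.Results.MP_544a75_co.Bermond

universe u

lemma not_complete' {V : Type u} [DecidableEq V] [Fintype V] {c : ℕ} {H : SimpleGraph V}
    (h3 : 3 ≤ c) (hc : c ≤ Fintype.card V) (hH : NoCyc H c) : ∃ x y, x ≠ y ∧ ¬ H.Adj x y := by
  classical
  let e := Fintype.equivFin V
  let f : H.comap e.symm ↪g H := (SimpleGraph.Iso.comap e.symm H).toEmbedding
  have h' : NoCyc (H.comap e.symm) c := fun a p hp => by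
    have := hH _ (p.map f.toHom) (hp.map f.injective)
    simpa using this
  obtain ⟨x, y, h1, h2⟩ := not_complete h3 hc h'
  exact ⟨e.symm x, e.symm y, fun h => h1 (e.symm.injective h), h2⟩

/-- Bermond's conjecture: a 2-connected graph with a labelling `x 1, ..., x n` of its vertices
satisfying condition (B) for `c ≤ n` has a cycle of length at least `c`. -/
theorem result {V : Type u} [Fintype V] (G : SimpleGraph V) [DecidableRel G.Adj] (n c : ℕ)
    (x : ℕ → V) (hx : Set.BijOn x (Set.Icc 1 n) Set.univ)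
    (h3 : 3 ≤ n) (h2 : ∀ v : V, (G.induce {w : V | w ≠ v}).Connected)
    (hcn : c ≤ n)
    (hB : ∀ i j : ℕ, 1 ≤ i → i < j → j ≤ n →
      i + j < c ∨ G.Adj (x i) (x j) ∨ G.degree (x i) > i ∨ G.degree (x j) ≥ j ∨
        G.degree (x i) + G.degree (x j) ≥ c) :
    ∃ (a : V) (p : G.Walk a a), p.IsCycle ∧ c ≤ p.length := by
  classical
  have hcard : Fintype.card V = n := by
    have := Set.ncard_congr' hx.equiv
    simpa [Set.ncard_univ] using this.symm
  choose ℓ hℓ hxℓ using fun v : V => hx.surjOn (Set.mem_univ v)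
  by_contra hne
  push Not at hne
  have h3' : 3 ≤ Fintype.card V := by omega
  by_cases hc : c ≤ 3
  · obtain ⟨S, -, hS, hR⟩ := clique_cover h2 h3' (c := 3) le_rfl
      (fun u p hp => lt_of_lt_of_le (hne u p hp) hc) (K := ∅) (by simp)
    rw [Finset.filter_false_of_mem fun u _ => by
      have := two_le_degree h2 h3' u; omega] at hR
    have := Finset.card_add_card_compl S
    simp only [Finset.card_empty] at hR this
    omega
  · obtain ⟨H, hGH, hH, hmax⟩ := exists_maximal (G := G) (c := c) hne
    refine Ctx.elim (G := H) (ℓ := ℓ) (c := c)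
      ⟨fun a b e => by rw [← hxℓ a, ← hxℓ b, e], fun v => (hℓ v).1,
        fun v => hcard ▸ (hℓ v).2, by omega, by omega,
        fun v => (h2 v).mono fun a b h => hGH h, hH, ?_⟩ hmax
      (not_complete' (by omega) (by omega) hH)
    intro a b h4 h5 h6 h7 h8
    have ha : G.degree a ≤ H.degree a := SimpleGraph.degree_le_of_le hGH
    have hb : G.degree b ≤ H.degree b := SimpleGraph.degree_le_of_le hGH
    have := hB (ℓ a) (ℓ b) (hℓ a).1 h4 (hℓ b).2
    rw [hxℓ a, hxℓ b] at this
    rcases this with h | h | h | h | h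
    · omega
    · exact absurd (hGH h) h5
    · omega
    · omega
    · omega

end Pool.Agent.Results.MP_544a75_co.Bermond
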